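import Pool.Agent.H919R4.ZS.Deriv

set_option autoImplicit false
set_option linter.unusedSectionVars false

open scoped Matrix ENNReal

namespace Pool.Agent.H919R4.ZS

universe u

variable {G : Type u} [Group G]

/-! ### preliminaries on the unit circle -/

/-- `exp(2πi t)` -/
noncomputable def ee (t : ℝ) : ℂ := Complex.exp (Complex.I * ((2 * Real.pi * t : ℝ) : ℂ))

lemma norm_ee (t : ℝ) : ‖ee t‖ = 1 := by
  rw [ee, mul_comm]; exact Complex.norm_exp_ofReal_mul_I _

lemma ee_add (s t : ℝ) : ee (s + t) = ee s * ee t := by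
  rw [ee, ee, ee, ← Complex.exp_add]
  congr 1
  push_cast
  ring

lemma ee_sub_one (t : ℝ) : ‖ee t - 1‖ ≤ 2 * Real.pi * |t| := by
  refine (Real.norm_exp_I_mul_ofReal_sub_one_le (x := 2 * Real.pi * t)).trans ?_
  rw [Real.norm_eq_abs, abs_mul, abs_of_pos Real.two_pi_pos]

lemma ee_int (n : ℤ) : ee n = 1 := by
  rw [ee, Complex.exp_eq_one_iff]
  exact ⟨n, by push_cast; ring⟩

lemma ee_eq_one (t : ℝ) (h : ee t = 1) : ∃ n : ℤ, t = n := by
  rw [ee, Complex.exp_eq_one_iff] at h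
  obtain ⟨n, hn⟩ := h
  refine ⟨n, ?_⟩
  have h2 : (2 * Real.pi * Complex.I : ℂ) ≠ 0 := Complex.two_pi_I_ne_zero
  have h3 : (t : ℂ) * (2 * Real.pi * Complex.I) = n * (2 * Real.pi * Complex.I) := by
    rw [← hn]; push_cast; ring
  have h4 := mul_right_cancel₀ h2 h3
  exact_mod_cast h4

lemma exists_log (z : ℂ) (hz : ‖z‖ = 1) : ∃ t : ℝ, ee t = z ∧ |t| ≤ ‖z - 1‖ := by
  refine ⟨Complex.arg z / (2 * Real.pi), ?_, ?_⟩
  · rw [ee, mul_div_cancel₀ _ Real.two_pi_pos.ne', mul_comm]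
    have := Complex.norm_mul_exp_arg_mul_I z
    rwa [hz, Complex.ofReal_one, one_mul] at this
  · have hz0 : z ≠ 0 := by rintro rfl; simp at hz
    have h1 := Complex.angle_le_mul_norm_sub hz (norm_one : ‖(1 : ℂ)‖ = 1)
    rw [Complex.angle_one_right hz0] at h1
    rw [abs_div, abs_of_pos Real.two_pi_pos, div_le_iff₀ Real.two_pi_pos]
    have h2 := Real.pi_pos
    have h3 := norm_nonneg (z - 1)
    nlinarith [mul_nonneg h2.le h3]

/-! ### integer values -/

lemma pV_hat {n : ℕ} (x z : Fin n → MonoidAlgebra ℤ G) :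
    pV x (fun j => hat (z j)) = hat (∑ j, x j * z j) := by
  simp only [pV, L_hat]
  simp only [hat, map_sum, sum_apply]

lemma pV_apply {n : ℕ} (x : Fin n → MonoidAlgebra ℤ G) (v : Fin n → L2 G) (h : G) :
    pV x v h = pV ((MonoidAlgebra.single h⁻¹ 1 : MonoidAlgebra ℤ G) • x) v 1 := by
  rw [pV_smul, L_single_one, inv_inv, mul_one]

/-- `H²(G; ℤ[G]) = 0` when `H¹(G; ℓ²(G)) = H²(G; ℓ²(G)) = 0` -/
theorem H2 (X : FinRes G) (hV : Van X) (hG : Infinite G)
    (z : Fin (X.n 2) → MonoidAlgebra ℤ G) (hz : X.d 2 *ᵥ z = 0) : ∃ y, X.d 1 *ᵥ y = z := by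
  -- the real `ℓ²` cochain `b` with coboundary `z`
  obtain ⟨b, hbr, hb⟩ : ∃ b : Fin (X.n 1) → L2 G, (∀ i h, b i h = (((b i h).re : ℝ) : ℂ)) ∧
      act ((X.d 1).map L) b = fun j => hat (z j) := by
    obtain ⟨b0, hb0⟩ := hV.h2 (fun j => hat (z j)) (by
      rw [act_hat, hz]
      funext i
      exact hat_zero)
    refine ⟨fun i => reV (b0 i), ?_, ?_⟩
    · intro i h; simp [reV_apply]
    · rw [act_reV, hb0]
      funext j
      ext h
      rw [reV_apply, hat_apply]
      simp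
  obtain ⟨x0, hx0⟩ := X.surj
  change eps X x0 = 1 at hx0
  set Φ : (Fin (X.n 1) → MonoidAlgebra ℤ G) → ℝ := fun x => (pV x b 1).re with hΦ
  have Φadd : ∀ x y, Φ (x + y) = Φ x + Φ y := by
    intro x y; simp only [hΦ, pV_add, lp.coeFn_add, Pi.add_apply, Complex.add_re]
  have Φneg : ∀ x, Φ (-x) = - Φ x := by
    intro x; simp only [hΦ, pV_neg, lp.coeFn_neg, Pi.neg_apply, Complex.neg_re]
  have Φsub : ∀ x y, Φ (x - y) = Φ x - Φ y := by
    intro x y; rw [sub_eq_add_neg, Φadd, Φneg, sub_eq_add_neg]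
  have Φz : ∀ (m : ℤ) x, Φ (m • x) = m * Φ x := by
    intro m x
    have := map_zsmul (⟨⟨Φ, by simpa using Φsub 0 0⟩, Φadd⟩ : (Fin (X.n 1) → MonoidAlgebra ℤ G) →+ ℝ) m x
    simpa using this
  have Φcong : ∀ x x', x ᵥ* X.d 0 = x' ᵥ* X.d 0 → ∃ n : ℤ, Φ x - Φ x' = n := by
    intro x x' h
    obtain ⟨y, hy⟩ : ∃ y : Fin (X.n 2) → MonoidAlgebra ℤ G, y ᵥ* X.d 1 = x - x' :=
      (X.exact_succ 0 (x - x')).1 (by rw [Matrix.sub_vecMul, h, sub_self])
    refine ⟨(∑ j, y j * z j).coeff 1, ?_⟩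
    have e1 : pV y (fun j => hat (z j)) 1 = (((∑ j, y j * z j).coeff 1 : ℤ) : ℂ) := by
      rw [pV_hat, hat_apply]
    have e3 : pV (x - x') b = pV y (fun j => hat (z j)) := by rw [← hy, pV_vecMul, hb]
    rw [← Φsub]
    simp only [hΦ]
    rw [e3, e1]
    simp
  -- paths from the base vertex
  have hγ : ∀ h : G, ∃ y, y ᵥ* X.d 0 = (MonoidAlgebra.single h⁻¹ 1 : MonoidAlgebra ℤ G) • x0 - x0 := by
    intro h
    apply exists_lift
    rw [eps_sub, eps_smul, augm_single, hx0]; norm_num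
  choose γ hγ using hγ
  set F : G → ℝ := fun h => Φ (γ h) with hF
  have Fdiff : ∀ k h : G, ∃ n : ℤ, F (k⁻¹ * h) - F h = (pV (γ k⁻¹) b h).re + n := by
    intro k h
    obtain ⟨n, hn⟩ := Φcong (γ (k⁻¹ * h) - γ h)
      ((MonoidAlgebra.single h⁻¹ 1 : MonoidAlgebra ℤ G) • γ k⁻¹) (by
        rw [Matrix.sub_vecMul, hγ, hγ, Matrix.smul_vecMul, hγ, smul_sub, smul_smul,
          MonoidAlgebra.single_mul_single, mul_inv_rev, mul_one]
        abel)
    refine ⟨n, ?_⟩
    rw [pV_apply]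
    rw [Φsub] at hn
    simp only [hΦ, hF] at hn ⊢
    linarith
  -- the circle valued function
  obtain ⟨v, C, hvC⟩ := const_add X hV (fun h => ee (F h)) (by
    intro k
    refine Memℓp.mono' (g := fun h => ((2 * Real.pi : ℝ) : ℂ) * pV (γ k⁻¹) b h)
      ((lp.memℓp (pV (γ k⁻¹) b)).const_mul _) ?_
    intro h
    obtain ⟨n, hn⟩ := Fdiff k h
    have e1 : F (k⁻¹ * h) = F h + ((pV (γ k⁻¹) b h).re + n) := by linarith
    rw [e1, ee_add, ee_add, ee_int, mul_one]
    have e2 : ee (F h) * ee (pV (γ k⁻¹) b h).re - ee (F h) =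
      ee (F h) * (ee (pV (γ k⁻¹) b h).re - 1) := by ring
    rw [e2, norm_mul, norm_ee, one_mul, norm_mul]
    refine (ee_sub_one _).trans ?_
    rw [Complex.norm_real, Real.norm_eq_abs, abs_of_pos Real.two_pi_pos]
    exact mul_le_mul_of_nonneg_left (Complex.abs_re_le_norm _) Real.two_pi_pos.le)
  have hC : ‖C‖ = 1 := by
    have h2 : 0 < (2 : ℝ≥0∞).toReal := by norm_num
    have ht := ((lp.memℓp v).summable h2).tendsto_cofinite_zero
    have ht2 : Filter.Tendsto (fun h => ‖v h‖) Filter.cofinite (nhds 0) := by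
      have h3 : (2 : ℝ≥0∞).toReal = ((2 : ℕ) : ℝ) := by norm_num
      simp only [h3, Real.rpow_natCast] at ht
      have h4 := ht.sqrt
      simpa [Real.sqrt_sq] using h4
    have ht3 : Filter.Tendsto (fun h => C + v h) Filter.cofinite (nhds (C + 0)) :=
      tendsto_const_nhds.add (tendsto_zero_iff_norm_tendsto_zero.2 ht2)
    have ht4 := ht3.norm
    have ht5 : (fun h => ‖C + v h‖) = fun _ => (1 : ℝ) := by
      funext h
      rw [← hvC h, norm_ee]
    rw [ht5, add_zero] at ht4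
    exact (tendsto_nhds_unique tendsto_const_nhds ht4).symm
  have hC0 : C ≠ 0 := by rintro rfl; simp at hC
  obtain ⟨θ, hθ, -⟩ := exists_log C hC
  have hr : ∀ h, ∃ t : ℝ, ee t = ee (F h) / C ∧ |t| ≤ ‖v h‖ := by
    intro h
    obtain ⟨t, ht1, ht2⟩ := exists_log (ee (F h) / C) (by rw [norm_div, norm_ee, hC, div_one])
    refine ⟨t, ht1, ht2.trans_eq ?_⟩
    have : ee (F h) / C - 1 = v h / C := by
      rw [show ee (F h) = C + v h from hvC h]; field_simp; ring
    rw [this, norm_div, hC, div_one]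
  choose r hr1 hr2 using hr
  have hrF : ∀ h, ∃ n : ℤ, F h - θ - r h = n := by
    intro h
    apply ee_eq_one
    have e1 : ee (F h - θ - r h) * ee θ * ee (r h) = ee (F h) := by
      rw [← ee_add, ← ee_add]; congr 1; ring
    rw [hθ, hr1, mul_assoc, mul_div_cancel₀ _ hC0] at e1
    have h0 : ee (F h) ≠ 0 := by
      intro h0
      have := norm_ee (F h)
      rw [h0] at this; simp at this
    exact mul_right_cancel₀ h0 (by rw [e1, one_mul])
  let rV : L2 G := ⟨fun h => ((r h : ℝ) : ℂ), Memℓp.mono' (lp.memℓp v) (fun h => by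
    rw [Complex.norm_real, Real.norm_eq_abs]; exact hr2 h)⟩
  have hrV : ∀ h, rV h = ((r h : ℝ) : ℂ) := fun h => rfl
  -- the correcting `0`-cochain
  have hζ : ∀ j : Fin (X.n 0), ∃ y, y ᵥ* X.d 0 = Pi.single j 1 - X.aug j • x0 := by
    intro j
    apply exists_lift
    rw [eps_sub, eps_single, eps_zsmul, hx0]; ring
  choose ζ hζ using hζ
  set ρ : Fin (X.n 0) → L2 G := fun j => ((X.aug j : ℤ) : ℂ) • rV + reV (pV (ζ j) b) with hρ
  have hρ1 : ∀ j h, ρ j h = (((X.aug j : ℝ) * r h + (pV (ζ j) b h).re : ℝ) : ℂ) := by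
    intro j h
    simp only [hρ]
    rw [lp.coeFn_add, Pi.add_apply, lp.coeFn_smul, Pi.smul_apply, hrV, reV_apply, smul_eq_mul]
    push_cast
    ring
  let K : AddSubgroup (Fin (X.n 0) → MonoidAlgebra ℤ G) :=
    { carrier := {y | ∃ x, x ᵥ* X.d 0 = y - eps X y • x0 ∧
        ∃ n : ℤ, pV y ρ 1 = ((Φ x - eps X y * θ + n : ℝ) : ℂ)}
      zero_mem' := by
        refine ⟨0, ?_, 0, ?_⟩
        · have : eps X 0 = 0 := by simp [eps]
          rw [this]; simp
        · have : eps X 0 = 0 := by simp [eps]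
          rw [this]
          have e : Φ 0 = 0 := by simpa using Φsub 0 0
          rw [e]
          simp [pV]
      add_mem' := by
        rintro y y' ⟨x, hx, n, hn⟩ ⟨x', hx', n', hn'⟩
        refine ⟨x + x', ?_, n + n', ?_⟩
        · rw [Matrix.add_vecMul, hx, hx', eps_add, add_smul]; abel
        · rw [pV_add, lp.coeFn_add, Pi.add_apply, hn, hn', eps_add, Φadd]
          push_cast
          ring
      neg_mem' := by
        rintro y ⟨x, hx, n, hn⟩
        refine ⟨-x, ?_, -n, ?_⟩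
        · rw [Matrix.neg_vecMul, hx, eps_neg, neg_smul]; abel
        · rw [pV_neg, lp.coeFn_neg, Pi.neg_apply, hn, eps_neg, Φneg]
          push_cast
          ring }
  have hK0 : ∀ (j : Fin (X.n 0)) (g : G),
      (MonoidAlgebra.single g 1 : MonoidAlgebra ℤ G) • (Pi.single j 1 : Fin (X.n 0) → MonoidAlgebra ℤ G) ∈ K := by
    intro j g
    have e1 : eps X ((MonoidAlgebra.single g 1 : MonoidAlgebra ℤ G) •
        (Pi.single j 1 : Fin (X.n 0) → MonoidAlgebra ℤ G)) = X.aug j := by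
      rw [eps_smul, augm_single, eps_single, one_mul]
    obtain ⟨n, hn⟩ := hrF g⁻¹
    refine ⟨X.aug j • γ g⁻¹ + (MonoidAlgebra.single g 1 : MonoidAlgebra ℤ G) • ζ j, ?_, - X.aug j * n, ?_⟩
    · rw [e1, Matrix.add_vecMul, Matrix.smul_vecMul, Matrix.smul_vecMul, hγ, hζ, inv_inv, smul_sub,
        smul_sub]
      have e2 : (MonoidAlgebra.single g 1 : MonoidAlgebra ℤ G) • X.aug j • x0 =
        X.aug j • (MonoidAlgebra.single g 1 : MonoidAlgebra ℤ G) • x0 := smul_comm _ _ _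
      rw [e2]
      abel
    · have e3 : pV ((MonoidAlgebra.single g 1 : MonoidAlgebra ℤ G) •
          (Pi.single j 1 : Fin (X.n 0) → MonoidAlgebra ℤ G)) ρ 1 = ρ j g⁻¹ := by
        rw [pV_smul, L_single_one, mul_one, pV_single]
      have e4 : Φ ((MonoidAlgebra.single g 1 : MonoidAlgebra ℤ G) • ζ j) = (pV (ζ j) b g⁻¹).re := by
        rw [pV_apply, inv_inv]
      rw [e3, e1, hρ1, Φadd, Φz, e4]
      have e5 : r g⁻¹ = Φ (γ g⁻¹) - θ - n := by
        have := hn
        simp only [hF] at this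
        linarith
      rw [e5]
      push_cast
      ring
  have hK : ∀ y, y ∈ K := by
    have h1 : ∀ (j : Fin (X.n 0)) (a : MonoidAlgebra ℤ G),
        a • (Pi.single j 1 : Fin (X.n 0) → MonoidAlgebra ℤ G) ∈ K := by
      intro j a
      refine MonoidAlgebra.induction_linear a ?_ ?_ ?_
      · rw [zero_smul]; exact K.zero_mem
      · intro x y hx hy
        rw [add_smul]; exact K.add_mem hx hy
      · intro g s
        have e1 : (MonoidAlgebra.single g s : MonoidAlgebra ℤ G) = s • MonoidAlgebra.single g 1 := by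
          rw [MonoidAlgebra.smul_single, smul_eq_mul, mul_one]
        rw [e1, smul_assoc]
        exact K.zsmul_mem (hK0 j g) s
    intro y
    have : y = ∑ j, y j • (Pi.single j 1 : Fin (X.n 0) → MonoidAlgebra ℤ G) := by
      funext i
      rw [Finset.sum_apply, Finset.sum_eq_single i]
      · simp
      · intro j _ hj; simp [Pi.single_eq_of_ne hj.symm]
      · simp
    rw [this]
    exact K.sum_mem fun j _ => h1 j (y j)
  -- the integral cochain
  have hint : ∀ (i : Fin (X.n 1)) (h : G), ∃ n : ℤ, (b i - act ((X.d 0).map L) ρ i) h = n := by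
    intro i h
    have e1 : act ((X.d 0).map L) ρ i = pV (X.d 0 i) ρ := rfl
    have e0 : (Pi.single i 1 : Fin (X.n 1) → MonoidAlgebra ℤ G) ᵥ* X.d 0 = X.d 0 i := by
      funext j; simp [Matrix.vecMul, dotProduct, Pi.single_apply]
    set xi : Fin (X.n 1) → MonoidAlgebra ℤ G :=
      (MonoidAlgebra.single h⁻¹ 1 : MonoidAlgebra ℤ G) • Pi.single i 1 with hxi
    have e2 : (MonoidAlgebra.single h⁻¹ 1 : MonoidAlgebra ℤ G) • X.d 0 i = xi ᵥ* X.d 0 := by
      rw [hxi, Matrix.smul_vecMul, e0]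
    obtain ⟨x, hx, n, hn⟩ := hK (xi ᵥ* X.d 0)
    rw [eps_d] at hx hn
    rw [zero_smul, sub_zero] at hx
    obtain ⟨m, hm⟩ := Φcong xi x hx.symm
    refine ⟨m - n, ?_⟩
    have e3 : b i h = ((Φ xi : ℝ) : ℂ) := by
      rw [hbr i h]
      congr 1
      simp only [hΦ]
      rw [hxi, ← pV_apply, pV_single]
    rw [lp.coeFn_sub, Pi.sub_apply, e1, pV_apply, e2, hn, e3]
    have e4 : Φ xi = Φ x + m := by linarith
    rw [e4]
    push_cast
    ring
  have hα : ∀ i, ∃ a, hat a = b i - act ((X.d 0).map L) ρ i := fun i => exists_hat _ (hint i)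
  choose α hα using hα
  refine ⟨α, ?_⟩
  have e1 := act_hat (X.d 1) α
  have e2 : (fun j => hat (α j)) = fun j => b j - act ((X.d 0).map L) ρ j := funext hα
  have e3 : act ((X.d 1).map L) (fun j => b j - act ((X.d 0).map L) ρ j) =
      fun i => act ((X.d 1).map L) b i - act ((X.d 1).map L) (act ((X.d 0).map L) ρ) i := by
    funext i
    simp only [act, map_sub, Finset.sum_sub_distrib]
  have e4 : act ((X.d 1).map L) (act ((X.d 0).map L) ρ) = 0 := by
    rw [← act_mul, ← Matrix.map_mul, d_mul_d]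
    funext i
    simp [act]
  rw [e2, e3, e4, hb] at e1
  funext i
  apply hat_injective
  have := congrFun e1 i
  simpa using this.symm

end Pool.Agent.H919R4.ZS
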