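import Pool.Agent.H919R4.ZS.Defs

set_option autoImplicit false

open scoped Matrix ENNReal

namespace Pool.Agent.H919R4.ZS

universe u

variable {G : Type u} [Group G] (X : FinRes G) {S : Type*} [Ring S]
  (φ : MonoidAlgebra ℤ G →+* S)

lemma d_mul_d (i : ℕ) : X.d (i + 1) * X.d i = 0 := by
  refine funext fun k => funext fun j => ?_
  have := (X.exact_succ i (X.d (i + 1) k)).2 ⟨Pi.single k 1, by
    funext j; simp [Matrix.vecMul, dotProduct, Pi.single_apply]⟩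
  rw [← Matrix.mul_apply_eq_vecMul] at this
  exact congrFun this j

lemma exact_of_subsingleton (i : ℕ) (h : Subsingleton (X.homology φ i))
    (x : Fin (X.n i) → S) (hx : x ∈ X.cyc φ i) : ∃ y, y ᵥ* (X.d i).map φ = x := by
  have h1 := Submodule.Quotient.subsingleton_iff.1 h
  have h2 : (⟨x, hx⟩ : X.cyc φ i) ∈ (LinearMap.range (X.del φ i)).submoduleOf (X.cyc φ i) := by
    rw [h1]; trivial
  obtain ⟨y, hy⟩ := h2
  exact ⟨y, hy⟩

lemma exists_rows {a b c : ℕ} (P : Matrix (Fin b) (Fin c) S) (T : Matrix (Fin a) (Fin c) S)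
    (h : ∀ i, ∃ y, y ᵥ* P = T i) : ∃ s : Matrix (Fin a) (Fin b) S, s * P = T := by
  choose s hs using h
  exact ⟨s, funext fun i => by rw [Matrix.mul_apply_eq_vecMul]; exact hs i⟩

theorem contraction (h0 : Subsingleton (X.homology φ 0)) (h1 : Subsingleton (X.homology φ 1))
    (h2 : Subsingleton (X.homology φ 2)) :
    ∃ (s0 : Matrix (Fin (X.n 0)) (Fin (X.n 1)) S) (s1 : Matrix (Fin (X.n 1)) (Fin (X.n 2)) S)
      (s2 : Matrix (Fin (X.n 2)) (Fin (X.n 3)) S),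
      s0 * (X.d 0).map φ = 1 ∧ (X.d 0).map φ * s0 + s1 * (X.d 1).map φ = 1 ∧
      (X.d 1).map φ * s1 + s2 * (X.d 2).map φ = 1 := by
  have dd : ∀ i, (X.d (i + 1)).map φ * (X.d i).map φ = 0 := by
    intro i
    rw [← Matrix.map_mul, d_mul_d]; ext; simp
  obtain ⟨s0, hs0⟩ := exists_rows ((X.d 0).map φ) (1 : Matrix (Fin (X.n 0)) (Fin (X.n 0)) S)
    (fun i => exact_of_subsingleton X φ 0 h0 _ trivial)
  have e1 : (1 - (X.d 0).map φ * s0) * (X.d 0).map φ = 0 := by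
    rw [Matrix.sub_mul, Matrix.one_mul, Matrix.mul_assoc, hs0, Matrix.mul_one, sub_self]
  obtain ⟨s1, hs1⟩ := exists_rows ((X.d 1).map φ) (1 - (X.d 0).map φ * s0)
    (fun i => exact_of_subsingleton X φ 1 h1 _ (by
      change ((1 - (X.d 0).map φ * s0 : Matrix (Fin (X.n 1)) (Fin (X.n 1)) S) i) ᵥ* (X.d 0).map φ = 0
      rw [← Matrix.mul_apply_eq_vecMul, e1]; rfl))
  have e2 : (1 - (X.d 1).map φ * s1) * (X.d 1).map φ = 0 := by
    rw [Matrix.sub_mul, Matrix.one_mul, Matrix.mul_assoc, hs1, Matrix.mul_sub, Matrix.mul_one,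
      ← Matrix.mul_assoc, dd, Matrix.zero_mul]
    simp
  obtain ⟨s2, hs2⟩ := exists_rows ((X.d 2).map φ) (1 - (X.d 1).map φ * s1)
    (fun i => exact_of_subsingleton X φ 2 h2 _ (by
      change ((1 - (X.d 1).map φ * s1 : Matrix (Fin (X.n 2)) (Fin (X.n 2)) S) i) ᵥ* (X.d 1).map φ = 0
      rw [← Matrix.mul_apply_eq_vecMul, e2]; rfl))
  exact ⟨s0, s1, s2, hs0, by rw [hs1]; abel, by rw [hs2]; abel⟩

end Pool.Agent.H919R4.ZS
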