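import Mathlib

/-!
Finite free resolutions of the trivial module `ℤ` over an integral group ring `ℤ[G]` (the
algebraic form of a finite aspherical CW complex with fundamental group `G`), the reduced group
`C*`-algebra `C*_r(G)`, and the homology of the resolution with coefficients in `C*_r(G)`.
-/

set_option autoImplicit false

open scoped Matrix ENNReal

namespace Pool.Agent.H919R4.ZS

universe u

/-! ### The reduced group `C*`-algebra -/

section RedCstar

variable (G : Type u)

/-- The Hilbert space `ℓ²(G)` of square summable functions `G → ℂ`. -/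
def Hil : Type u := lp (fun _ : G => ℂ) 2

/-- The norm of `ℓ²(G)`. -/
noncomputable instance instNormedAddCommGroupHil : NormedAddCommGroup (Hil G) :=
  lp.normedAddCommGroup

/-- The scalar multiplication of `ℓ²(G)`. -/
noncomputable instance instNormedSpaceHil : NormedSpace ℂ (Hil G) :=
  lp.instNormedSpace

variable {G}

/-- The function `G → ℂ` underlying an element of `ℓ²(G)`. -/
def Hil.fn (f : Hil G) : G → ℂ := Subtype.val (p := fun f => f ∈ lp (fun _ : G => ℂ) 2) f

/-- The element of `ℓ²(G)` given by a square summable function. -/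
def Hil.mk (f : G → ℂ) (hf : Memℓp f 2) : Hil G := ⟨f, hf⟩

lemma Hil.memlp (f : Hil G) : Memℓp f.fn 2 := lp.memℓp (p := 2) (E := fun _ : G => ℂ) f

variable [Group G]

lemma memlp_shift (g : G) {f : G → ℂ} (hf : Memℓp f 2) : Memℓp (fun h => f (g⁻¹ * h)) 2 := by
  have h2 : 0 < (2 : ℝ≥0∞).toReal := by norm_num
  rw [memℓp_gen_iff h2] at hf ⊢
  exact hf.comp_injective (mul_right_injective g⁻¹)

/-- Left translation `(λ(g) f)(h) = f(g⁻¹h)` as a linear map of `ℓ²(G)`. -/
def shift (g : G) : Hil G →ₗ[ℂ] Hil G where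
  toFun f := Hil.mk (fun h => f.fn (g⁻¹ * h)) (memlp_shift g f.memlp)
  map_add' _ _ := rfl
  map_smul' _ _ := rfl

lemma norm_shift (g : G) (f : Hil G) : ‖shift g f‖ = ‖f‖ := by
  have h2 : 0 < (2 : ℝ≥0∞).toReal := by norm_num
  have e : ∀ f : lp (fun _ : G => ℂ) 2, ‖(show lp (fun _ : G => ℂ) 2 from shift g f)‖ = ‖f‖ := by
    intro f
    rw [lp.norm_eq_tsum_rpow h2, lp.norm_eq_tsum_rpow h2]
    congr 1
    exact (Equiv.mulLeft g⁻¹).tsum_eq (fun h => ‖f h‖ ^ (2 : ℝ≥0∞).toReal)
  exact e f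

variable (G)

/-- The algebra `B(ℓ²(G))` of bounded operators on `ℓ²(G)`. -/
abbrev Op : Type u := Hil G →L[ℂ] Hil G

variable {G}

/-- Left translation `(λ(g) f)(h) = f(g⁻¹h)` as a bounded operator on `ℓ²(G)`. -/
noncomputable def lreg (g : G) : Hil G →L[ℂ] Hil G :=
  (shift g).mkContinuous 1 (fun f => by rw [norm_shift, one_mul])

variable (G)

/-- The left regular representation `g ↦ λ(g)` of `G` on `ℓ²(G)`. -/
noncomputable def lregHom : G →* Op G where
  toFun := lreg
  map_one' := by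
    refine ContinuousLinearMap.ext fun f => ?_
    refine Subtype.ext (funext fun h => ?_)
    change f.fn (1⁻¹ * h) = f.fn h
    simp
  map_mul' g k := by
    refine ContinuousLinearMap.ext fun f => ?_
    refine Subtype.ext (funext fun h => ?_)
    change f.fn ((g * k)⁻¹ * h) = f.fn (k⁻¹ * (g⁻¹ * h))
    simp [mul_assoc]

/-- The image of the complex group ring `ℂ[G]` in `B(ℓ²(G))`: the subring generated by the
operators `c λ(g)`, `c ∈ ℂ`, `g ∈ G`. -/
noncomputable def groupRing : Subring (Op G) :=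
  Subring.closure {T | ∃ (c : ℂ) (g : G), T = c • lreg g}

/-- The reduced group `C*`-algebra `C*_r(G)`: the operator norm closure of (the image of) the
complex group ring `ℂ[G]` in the bounded operators on `ℓ²(G)`. -/
noncomputable def redCstar : Subring (Op G) := (groupRing G).topologicalClosure

/-- The underlying type of `C*_r(G)`. -/
def RedC : Type u := redCstar G

/-- The ring structure of `C*_r(G)`. -/
noncomputable instance instRingRedC : Ring (RedC G) := Subring.toRing (redCstar G)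

/-- The ring homomorphism `ℤ[G] → B(ℓ²(G))`, `∑ a_g g ↦ ∑ a_g λ(g)`. -/
noncomputable def toOp : MonoidAlgebra ℤ G →+* Op G :=
  MonoidAlgebra.liftNCRingHom (Int.castRingHom (Op G)) (lregHom G)
    (fun x y => Int.cast_commute x (lregHom G y))

lemma toOp_mem (a : MonoidAlgebra ℤ G) : toOp G a ∈ redCstar G := by
  refine Subring.le_topologicalClosure _ ?_
  refine MonoidAlgebra.induction_linear a ?_ ?_ ?_
  · rw [map_zero]; exact Subring.zero_mem _
  · intro x y hx hy
    rw [map_add]; exact Subring.add_mem _ hx hy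
  · intro g r
    refine Subring.subset_closure ⟨(r : ℂ), g, ?_⟩
    change MonoidAlgebra.liftNC _ _ _ = _
    rw [MonoidAlgebra.liftNC_single, Int.cast_smul_eq_zsmul]
    change ((r : ℤ) : Op G) * lregHom G g = r • lreg g
    rw [← zsmul_eq_mul]
    rfl

/-- The canonical ring homomorphism `ℤ[G] → C*_r(G)`, `∑ a_g g ↦ ∑ a_g λ(g)`. -/
noncomputable def toRed : MonoidAlgebra ℤ G →+* RedC G :=
  (toOp G).codRestrict (redCstar G) (toOp_mem G)

end RedCstar

/-! ### Finite free resolutions -/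

/-- The augmentation `ℤ[G] → ℤ`, `∑ a_g g ↦ ∑ a_g`. -/
noncomputable def augm (G : Type u) [Group G] : MonoidAlgebra ℤ G →+* ℤ :=
  (MonoidAlgebra.lift ℤ ℤ G 1).toRingHom

/-- A finite free resolution
`0 → ℤ[G]^(n len) → ⋯ → ℤ[G]^(n 1) → ℤ[G]^(n 0) → ℤ → 0`
of the trivial left `ℤ[G]`-module `ℤ`; elements of `ℤ[G]^m` are row vectors, the differential
`ℤ[G]^(n (i+1)) → ℤ[G]^(n i)` is `x ↦ x · d i`, and the augmentation is
`x ↦ ∑ j, (augm (x j)) * aug j`.

The cellular chain complex of the universal cover of a finite aspherical CW complex `M` of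
dimension `len` with `π₁(M) = G` and `n i` cells of dimension `i` is of this form. -/
structure FinRes (G : Type u) [Group G] where
  /-- the length -/
  len : ℕ
  /-- the ranks of the free modules -/
  n : ℕ → ℕ
  /-- the matrices of the differentials -/
  d : ∀ i, Matrix (Fin (n (i + 1))) (Fin (n i)) (MonoidAlgebra ℤ G)
  /-- the values of the augmentation `ℤ[G]^(n 0) → ℤ` on the basis -/
  aug : Fin (n 0) → ℤ
  /-- the modules vanish beyond the length -/
  n_eq_zero : ∀ i, len < i → n i = 0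
  /-- the augmentation is surjective -/
  surj : ∃ x : Fin (n 0) → MonoidAlgebra ℤ G, ∑ j, augm G (x j) * aug j = 1
  /-- exactness at `ℤ[G]^(n 0)` -/
  exact_zero : ∀ x : Fin (n 0) → MonoidAlgebra ℤ G,
    ∑ j, augm G (x j) * aug j = 0 ↔ ∃ y, y ᵥ* d 0 = x
  /-- exactness at `ℤ[G]^(n (i + 1))` -/
  exact_succ : ∀ (i : ℕ) (x : Fin (n (i + 1)) → MonoidAlgebra ℤ G),
    x ᵥ* d i = 0 ↔ ∃ y, y ᵥ* d (i + 1) = x

namespace FinRes

variable {G : Type u} [Group G] (X : FinRes G) {S : Type*} [Ring S]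
  (φ : MonoidAlgebra ℤ G →+* S)

/-- The differential `S^(n (i+1)) → S^(n i)`, `x ↦ x · φ(d i)`, of `S ⊗_{ℤ[G]} C_*`. -/
noncomputable def del (i : ℕ) : (Fin (X.n (i + 1)) → S) →ₗ[S] (Fin (X.n i) → S) :=
  ((X.d i).map φ).vecMulLinear

/-- The cycles of `S ⊗_{ℤ[G]} C_*`. -/
noncomputable def cyc : ∀ i : ℕ, Submodule S (Fin (X.n i) → S)
  | 0 => ⊤
  | i + 1 => LinearMap.ker (X.del φ i)

/-- The homology `H_i(S ⊗_{ℤ[G]} C_*)` (cycles modulo boundaries). -/
noncomputable abbrev homology (i : ℕ) : Type _ :=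
  X.cyc φ i ⧸ (LinearMap.range (X.del φ i)).submoduleOf (X.cyc φ i)

/-- The coboundary `ℤ[G]^(n i) → ℤ[G]^(n (i+1))`, `y ↦ d i · y` on column vectors, of the
cochain complex `Hom_{ℤ[G]}(C_*, ℤ[G])`. -/
noncomputable def cobd (i : ℕ) : (Fin (X.n i) → MonoidAlgebra ℤ G) →+ (Fin (X.n (i + 1)) → MonoidAlgebra ℤ G) where
  toFun y := X.d i *ᵥ y
  map_zero' := Matrix.mulVec_zero _
  map_add' := Matrix.mulVec_add _

/-- The coboundaries of `Hom_{ℤ[G]}(C_*, ℤ[G])`. -/
noncomputable def coboundaries : ∀ i : ℕ, AddSubgroup (Fin (X.n i) → MonoidAlgebra ℤ G)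
  | 0 => ⊥
  | i + 1 => (X.cobd i).range

/-- The cohomology `H^i(G; ℤ[G])` of the group `G` with coefficients in `ℤ[G]`, computed from
the resolution. -/
noncomputable abbrev cohomology (i : ℕ) : Type _ :=
  (X.cobd i).ker ⧸ (X.coboundaries i).addSubgroupOf (X.cobd i).ker

end FinRes

end Pool.Agent.H919R4.ZS
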