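import Pool.Agent.H919R4.ZS.Hat

set_option autoImplicit false
set_option linter.unusedSectionVars false

open scoped Matrix ENNReal

namespace Pool.Agent.H919R4.ZS

universe u

variable {G : Type u} [Group G]

lemma augm_single (g : G) (r : ℤ) : augm G (MonoidAlgebra.single g r) = r := by
  simp [augm]

/-- the augmentation of the resolution -/
noncomputable def eps (X : FinRes G) (x : Fin (X.n 0) → MonoidAlgebra ℤ G) : ℤ :=
  ∑ j, augm G (x j) * X.aug j

lemma eps_add (X : FinRes G) (x y : Fin (X.n 0) → MonoidAlgebra ℤ G) :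
    eps X (x + y) = eps X x + eps X y := by
  simp [eps, Finset.sum_add_distrib, add_mul]

lemma eps_neg (X : FinRes G) (x : Fin (X.n 0) → MonoidAlgebra ℤ G) :
    eps X (-x) = - eps X x := by
  simp [eps, Finset.sum_neg_distrib]

lemma eps_sub (X : FinRes G) (x y : Fin (X.n 0) → MonoidAlgebra ℤ G) :
    eps X (x - y) = eps X x - eps X y := by
  rw [sub_eq_add_neg, eps_add, eps_neg, sub_eq_add_neg]

lemma eps_smul (X : FinRes G) (a : MonoidAlgebra ℤ G) (x : Fin (X.n 0) → MonoidAlgebra ℤ G) :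
    eps X (a • x) = augm G a * eps X x := by
  simp [eps, Finset.mul_sum, mul_assoc]

lemma eps_zsmul (X : FinRes G) (a : ℤ) (x : Fin (X.n 0) → MonoidAlgebra ℤ G) :
    eps X (a • x) = a * eps X x := by
  simp [eps, Finset.mul_sum, mul_assoc]

lemma eps_single (X : FinRes G) (j : Fin (X.n 0)) : eps X (Pi.single j 1) = X.aug j := by
  rw [eps, Finset.sum_eq_single j]
  · simp
  · intro i _ hi; simp [Pi.single_eq_of_ne hi]
  · simp

lemma eps_d (X : FinRes G) (y : Fin (X.n 1) → MonoidAlgebra ℤ G) : eps X (y ᵥ* X.d 0) = 0 :=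
  (X.exact_zero _).2 ⟨y, rfl⟩

lemma exists_lift (X : FinRes G) (x : Fin (X.n 0) → MonoidAlgebra ℤ G) (h : eps X x = 0) :
    ∃ y, y ᵥ* X.d 0 = x := (X.exact_zero _).1 h

/-- `∑ aug j • y j` -/
noncomputable def Th (X : FinRes G) : (Fin (X.n 0) → MonoidAlgebra ℤ G) →+ MonoidAlgebra ℤ G where
  toFun y := ∑ j, X.aug j • y j
  map_zero' := by simp
  map_add' := by intro x y; simp [Finset.sum_add_distrib]

lemma Th_apply (X : FinRes G) (y : Fin (X.n 0) → MonoidAlgebra ℤ G) :
    Th X y = ∑ j, X.aug j • y j := rfl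

lemma Th_smul (X : FinRes G) (a : MonoidAlgebra ℤ G) (y : Fin (X.n 0) → MonoidAlgebra ℤ G) :
    Th X (a • y) = a * Th X y := by
  simp only [Th_apply, Finset.mul_sum, Pi.smul_apply, smul_eq_mul]
  refine Finset.sum_congr rfl fun j _ => ?_
  rw [mul_smul_comm]

lemma augm_Th (X : FinRes G) (y : Fin (X.n 0) → MonoidAlgebra ℤ G) :
    augm G (Th X y) = eps X y := by
  simp only [Th_apply, map_sum, eps, map_zsmul, smul_eq_mul]
  exact Finset.sum_congr rfl fun j _ => mul_comm _ _

/-- the additive extension of `w : G → ℓ²(G)` to the group ring -/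
noncomputable def mm (w : G → L2 G) : MonoidAlgebra ℤ G →+ L2 G where
  toFun a := a.coeff.sum fun k c => c • w k
  map_zero' := by simp
  map_add' x y := by
    rw [MonoidAlgebra.coeff_add]
    exact Finsupp.sum_add_index' (by simp) (by intro a b c; rw [add_smul])

lemma mm_single (w : G → L2 G) (k : G) (r : ℤ) : mm w (MonoidAlgebra.single k r) = r • w k := by
  change (MonoidAlgebra.single k r).coeff.sum (fun k c => c • w k) = _
  rw [MonoidAlgebra.coeff_single, Finsupp.sum_single_index (by simp)]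

lemma mm_mul (w : G → L2 G) (hw : ∀ g k, w (g * k) = L (MonoidAlgebra.single g 1) (w k) + w g)
    (c a : MonoidAlgebra ℤ G) : mm w (c * a) = L c (mm w a) + augm G a • mm w c := by
  refine MonoidAlgebra.induction_linear c ?_ ?_ ?_
  · simp
  · intro x y hx hy
    rw [add_mul, map_add, hx, hy, map_add, map_add, add_apply, smul_add]
    abel
  · intro g r
    refine MonoidAlgebra.induction_linear a ?_ ?_ ?_
    · simp
    · intro x y hx hy
      rw [mul_add, map_add, hx, hy, map_add, map_add, map_add, add_smul]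
      abel
    · intro k s
      rw [MonoidAlgebra.single_mul_single, mm_single, mm_single, mm_single, augm_single, hw]
      have e1 : (MonoidAlgebra.single g r : MonoidAlgebra ℤ G) = r • MonoidAlgebra.single g 1 := by
        rw [MonoidAlgebra.smul_single, smul_eq_mul, mul_one]
      have e3 : L (r • (MonoidAlgebra.single g 1 : MonoidAlgebra ℤ G)) =
        r • L (MonoidAlgebra.single g 1) := map_zsmul L r _
      have e2 : ∀ (T : L2 G →L[ℂ] L2 G) (v : L2 G), (r • T) v = r • T v := by
        intro T v; simp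
      rw [e1, e3, e2, map_zsmul, smul_add, mul_smul, mul_smul, smul_comm r s (w g)]

/-- every derivation `G → ℓ²(G)` is inner -/
theorem deriv_inner (X : FinRes G) (hV : Van X) (w : G → L2 G)
    (hw : ∀ g k, w (g * k) = L (MonoidAlgebra.single g 1) (w k) + w g) :
    ∃ v, ∀ k, w k = L (MonoidAlgebra.single k 1) v - v := by
  obtain ⟨x0, hx0⟩ := X.surj
  change eps X x0 = 1 at hx0
  set b : Fin (X.n 1) → L2 G := fun i => mm w (Th X (X.d 0 i)) with hb
  have hrow : ∀ i, eps X (X.d 0 i) = 0 := by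
    intro i
    have : (Pi.single i 1 : Fin (X.n 1) → MonoidAlgebra ℤ G) ᵥ* X.d 0 = X.d 0 i := by
      funext j; simp [Matrix.vecMul, dotProduct, Pi.single_apply]
    rw [← this, eps_d]
  have hp : ∀ x : Fin (X.n 1) → MonoidAlgebra ℤ G, pV x b = mm w (Th X (x ᵥ* X.d 0)) := by
    intro x
    have e1 : ∀ i, L (x i) (b i) = mm w (Th X (x i • X.d 0 i)) := by
      intro i
      rw [Th_smul, mm_mul w hw, augm_Th, hrow, zero_smul, add_zero]
    rw [pV, Finset.sum_congr rfl (fun i _ => e1 i), ← map_sum, ← map_sum, Matrix.vecMul_eq_sum]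
  have hc : act ((X.d 1).map L) b = 0 := by
    funext l
    have : act ((X.d 1).map L) b l = pV (X.d 1 l) b := rfl
    rw [this, hp, ← Matrix.mul_apply_eq_vecMul, d_mul_d]
    change mm w (Th X 0) = 0
    simp
  obtain ⟨v', hv'⟩ := hV.h1 b hc
  have hy : ∀ y, eps X y = 0 → pV y v' = mm w (Th X y) := by
    intro y hy
    obtain ⟨x, rfl⟩ := exists_lift X y hy
    rw [pV_vecMul, hv', hp]
  have hw1 : w 1 = 0 := by
    have := hw 1 1
    have e : L (MonoidAlgebra.single (1 : G) 1) (w 1) = w 1 := by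
      rw [← MonoidAlgebra.one_def, map_one]; rfl
    rw [mul_one, e] at this
    exact left_eq_add.1 this
  refine ⟨pV x0 v' - mm w (Th X x0), ?_⟩
  intro k
  have e0 : eps X ((MonoidAlgebra.single k 1 - 1 : MonoidAlgebra ℤ G) • x0) = 0 := by
    rw [eps_smul, map_sub, augm_single, map_one, sub_self, zero_mul]
  have e1 := hy _ e0
  rw [pV_smul, Th_smul, mm_mul w hw, augm_Th, hx0, one_smul, map_sub (mm w), MonoidAlgebra.one_def,
    mm_single, mm_single, hw1, smul_zero, sub_zero, one_smul] at e1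
  have e2 : ∀ v : L2 G, L (MonoidAlgebra.single k 1 - MonoidAlgebra.single 1 1) v =
      L (MonoidAlgebra.single k 1) v - v := by
    intro v
    rw [map_sub, ← MonoidAlgebra.one_def, map_one]; rfl
  rw [e2, e2] at e1
  rw [map_sub]
  rw [← sub_eq_iff_eq_add'] at e1
  rw [← e1]
  abel

/-- a function with square summable differences is a constant plus an `ℓ²` function -/
theorem const_add (X : FinRes G) (hV : Van X) (f : G → ℂ)
    (hf : ∀ k : G, Memℓp (fun h => f (k⁻¹ * h) - f h) 2) :
    ∃ (v : L2 G) (C : ℂ), ∀ h, f h = C + v h := by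
  obtain ⟨v, hv⟩ := deriv_inner X hV (fun k => ⟨fun h => f (k⁻¹ * h) - f h, hf k⟩) (by
    intro g k
    ext h
    rw [lp.coeFn_add, Pi.add_apply, L_single_one]
    change f ((g * k)⁻¹ * h) - f h = (f (k⁻¹ * (g⁻¹ * h)) - f (g⁻¹ * h)) + (f (g⁻¹ * h) - f h)
    rw [mul_inv_rev, mul_assoc]
    ring)
  refine ⟨v, f 1 - v 1, ?_⟩
  intro h
  have h1 := congrArg (fun w : L2 G => w h) (hv h)
  rw [lp.coeFn_sub, Pi.sub_apply, L_single_one] at h1
  change f (h⁻¹ * h) - f h = v (h⁻¹ * h) - v h at h1
  rw [inv_mul_cancel] at h1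
  linear_combination -h1

end Pool.Agent.H919R4.ZS
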